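import Mathlib

/-! Locally compact groups without proper dense subgroups. -/

namespace Pool.Agent.X194.DLM

open Topology Filter Set

/-- A topological group is *locally minimal* if there is a neighbourhood `V` of the identity such
that every coarser Hausdorff group topology, for which `V` is a neighbourhood of the identity,
equals the given one. -/
def IsLocallyMinimal (G : Type) [Group G] [τ : TopologicalSpace G] : Prop :=
  ∃ V ∈ 𝓝 (1 : G), ∀ σ : TopologicalSpace G, @IsTopologicalGroup G σ _ → @T2Space G σ →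
    τ ≤ σ → V ∈ @nhds G σ 1 → σ = τ

/-- Every dense subgroup is locally minimal. -/
def IsDenselyLocallyMinimal (G : Type) [Group G] [TopologicalSpace G] : Prop :=
  ∀ H : Subgroup G, Dense (H : Set G) → IsLocallyMinimal H

theorem locMin_of_locallyCompact (G : Type) [Group G] [τ : TopologicalSpace G]
    [IsTopologicalGroup G] [T2Space G] [LocallyCompactSpace G] : IsLocallyMinimal G := by
  obtain ⟨V, hVc, hV⟩ := exists_compact_mem_nhds (1 : G)
  have key : ∀ U ∈ 𝓝 (1 : G), ∃ K : Set G, IsCompact K ∧ (1 : G) ∉ K ∧ V ⊆ K ∪ U := by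
    intro U hU
    refine ⟨V \ interior U, hVc.diff isOpen_interior, fun h => h.2 (mem_interior_iff_mem_nhds.2 hU), ?_⟩
    intro x hx
    by_cases hxU : x ∈ U
    · exact Or.inr hxU
    · exact Or.inl ⟨hx, fun h => hxU (interior_subset h)⟩
  have hτ : @IsTopologicalGroup G τ _ := inferInstance
  refine ⟨V, hV, fun σ hσ hσ2 hle hVσ => ?_⟩
  refine IsTopologicalGroup.ext hσ hτ (le_antisymm ?_ (nhds_mono hle))
  intro U hU
  obtain ⟨K, hK, h1K, hVK⟩ := key U hU
  have hK' : @IsCompact G σ K := by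
    have := @IsCompact.image G G τ σ K id hK (continuous_id_of_le hle)
    rwa [image_id] at this
  have hK2 : @IsClosed G σ K := @IsCompact.isClosed G σ hσ2 _ hK'
  have h1 : Kᶜ ∈ @nhds G σ 1 :=
    @IsOpen.mem_nhds G σ 1 _ (@IsClosed.isOpen_compl G σ _ hK2) h1K
  refine mem_of_superset (inter_mem h1 hVσ) ?_
  rintro x ⟨hx1, hx2⟩
  rcases hVK hx2 with h | h
  · exact absurd h hx1
  · exact h

/-- The affine group of a commutative ring. -/
@[ext] structure Aff (R : Type) [CommRing R] where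
  /-- translation part -/
  b : R
  /-- linear part -/
  a : Rˣ

/-- the units with the discrete topology -/
def D (R : Type) [CommRing R] : Type := Rˣ

instance (R : Type) [CommRing R] : TopologicalSpace (D R) := ⊥
instance (R : Type) [CommRing R] : DiscreteTopology (D R) := ⟨rfl⟩

/-- identity -/
def toD {R : Type} [CommRing R] (u : Rˣ) : D R := u

/-- identity -/
def ofD {R : Type} [CommRing R] (u : D R) : Rˣ := u

section

variable {R : Type} [CommRing R]

instance : Mul (Aff R) := ⟨fun g h => ⟨g.b + g.a * h.b, g.a * h.a⟩⟩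
instance : One (Aff R) := ⟨⟨0, 1⟩⟩
instance : Inv (Aff R) := ⟨fun g => ⟨-(((g.a⁻¹ : Rˣ) : R) * g.b), g.a⁻¹⟩⟩

theorem mul_b (g h : Aff R) : (g * h).b = g.b + g.a * h.b := rfl
theorem mul_a (g h : Aff R) : (g * h).a = g.a * h.a := rfl
theorem one_b : (1 : Aff R).b = 0 := rfl
theorem one_a : (1 : Aff R).a = 1 := rfl
theorem inv_b (g : Aff R) : (g⁻¹).b = -(((g.a⁻¹ : Rˣ) : R) * g.b) := rfl
theorem inv_a (g : Aff R) : (g⁻¹).a = g.a⁻¹ := rfl

instance : Group (Aff R) := Group.ofLeftAxioms
  (by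
    intro x y z
    refine Aff.ext ?_ ?_
    · simp only [mul_b, mul_a, Units.val_mul]; ring
    · simp only [mul_a, mul_assoc])
  (by
    intro x
    refine Aff.ext ?_ ?_
    · simp only [mul_b, one_b, one_a, Units.val_one]; ring
    · simp only [mul_a, one_a, one_mul])
  (by
    intro x
    refine Aff.ext ?_ ?_
    · simp only [mul_b, inv_b, inv_a, one_b]; ring
    · simp only [mul_a, inv_a, one_a, inv_mul_cancel])

/-- coordinates -/
def toP (R : Type) [CommRing R] : Aff R ≃ R × D R where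
  toFun g := (g.b, toD g.a)
  invFun p := ⟨p.1, ofD p.2⟩
  left_inv _ := rfl
  right_inv _ := rfl

variable [TopologicalSpace R]

instance : TopologicalSpace (Aff R) := TopologicalSpace.induced (toP R) inferInstance

/-- the coordinates as a homeomorphism -/
def toH (R : Type) [CommRing R] [TopologicalSpace R] : Aff R ≃ₜ R × D R :=
  (toP R).toHomeomorphOfIsInducing ⟨rfl⟩

theorem b_cont : Continuous (fun g : Aff R => g.b) := continuous_fst.comp (toH R).continuous
theorem a_cont : Continuous (fun g : Aff R => toD g.a) :=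
  continuous_snd.comp (toH R).continuous

variable [IsTopologicalRing R]

theorem smul_cont : Continuous (fun p : D R × R => ((ofD p.1 : Rˣ) : R) * p.2) := by
  rw [continuous_prod_of_discrete_left]
  intro u
  show Continuous (fun b : R => ((ofD u : Rˣ) : R) * b)
  exact continuous_const.mul continuous_id

instance : IsTopologicalGroup (Aff R) where
  continuous_mul := by
    have hb1 : Continuous (fun p : Aff R × Aff R => p.1.b) := b_cont.comp continuous_fst
    have hb2 : Continuous (fun p : Aff R × Aff R => p.2.b) := b_cont.comp continuous_snd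
    have ha1 : Continuous (fun p : Aff R × Aff R => toD p.1.a) := a_cont.comp continuous_fst
    have ha2 : Continuous (fun p : Aff R × Aff R => toD p.2.a) := a_cont.comp continuous_snd
    have hm : Continuous (fun p : D R × D R => toD (ofD p.1 * ofD p.2)) :=
      continuous_of_discreteTopology
    rw [continuous_induced_rng]
    have h1 : Continuous (fun p : Aff R × Aff R => ((ofD (toD p.1.a) : Rˣ) : R) * p.2.b) :=
      smul_cont.comp (ha1.prodMk hb2)
    have h2 : Continuous (fun p : Aff R × Aff R => toD (ofD (toD p.1.a) * ofD (toD p.2.a))) :=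
      hm.comp (ha1.prodMk ha2)
    exact (hb1.add h1).prodMk h2
  continuous_inv := by
    have hi : Continuous (fun p : D R => toD ((ofD p)⁻¹)) :=
      continuous_of_discreteTopology
    rw [continuous_induced_rng]
    have h2 : Continuous (fun p : Aff R => toD ((ofD (toD p.a))⁻¹)) := hi.comp a_cont
    have h1 : Continuous (fun p : Aff R => ((ofD (toD ((ofD (toD p.a))⁻¹)) : Rˣ) : R) * p.b) :=
      smul_cont.comp (h2.prodMk b_cont)
    exact h1.neg.prodMk h2

omit [IsTopologicalRing R] in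
/-- If every element of `R` is a sum of two units and the units contain a nonempty open set, then
`Aff R` has no proper dense subgroup. -/
theorem no_dense (h2 : ∀ r : R, ∃ u v : Rˣ, r = u + v)
    (hU : ∃ W : Set R, IsOpen W ∧ W.Nonempty ∧ ∀ w ∈ W, IsUnit w)
    (H : Subgroup (Aff R)) (hH : Dense (H : Set (Aff R))) : H = ⊤ := by
  -- every open set of the form `B × {u}` meets `H`
  have hmeet : ∀ (B : Set R) (u : Rˣ), IsOpen B → B.Nonempty → ∃ b ∈ B, (⟨b, u⟩ : Aff R) ∈ H := by
    intro B u hB hBne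
    have hopen : IsOpen {g : Aff R | g.b ∈ B ∧ toD g.a ∈ ({toD u} : Set (D R))} :=
      (hB.preimage b_cont).inter ((isOpen_discrete ({toD u} : Set (D R))).preimage a_cont)
    obtain ⟨b0, hb0⟩ := hBne
    obtain ⟨g, ⟨hgB, hgu⟩, hgH⟩ := hH.inter_open_nonempty _ hopen ⟨⟨b0, u⟩, hb0, rfl⟩
    refine ⟨g.b, hgB, ?_⟩
    have : (⟨g.b, u⟩ : Aff R) = g := Aff.ext rfl hgu.symm
    rw [this]; exact hgH
  have hadd : ∀ x y : R, (⟨x, 1⟩ : Aff R) ∈ H → (⟨y, 1⟩ : Aff R) ∈ H → (⟨x + y, 1⟩ : Aff R) ∈ H := by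
    intro x y hx hy
    have := H.mul_mem hx hy
    have h : (⟨x, 1⟩ : Aff R) * ⟨y, 1⟩ = ⟨x + y, 1⟩ := by
      refine Aff.ext ?_ ?_
      · rw [mul_b]; simp
      · rw [mul_a]; simp
    rwa [h] at this
  have hunit : ∀ (x : R) (u : Rˣ), (⟨x, 1⟩ : Aff R) ∈ H → (⟨u * x, 1⟩ : Aff R) ∈ H := by
    intro x u hx
    obtain ⟨b, -, hb⟩ := hmeet univ u isOpen_univ univ_nonempty
    have := H.mul_mem (H.mul_mem hb hx) (H.inv_mem hb)
    have h : (⟨b, u⟩ : Aff R) * ⟨x, 1⟩ * (⟨b, u⟩ : Aff R)⁻¹ = ⟨u * x, 1⟩ := by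
      refine Aff.ext ?_ ?_
      · rw [mul_b, mul_b, mul_a, inv_b]
        show b + u * x + ((u * 1 : Rˣ) : R) * -(((u⁻¹ : Rˣ) : R) * b) = u * x
        rw [mul_one, mul_neg, ← mul_assoc, Units.mul_inv, one_mul]
        ring
      · rw [mul_a, mul_a, inv_a]
        show u * 1 * u⁻¹ = 1
        simp
    rwa [h] at this
  obtain ⟨W, hWo, hWne, hWu⟩ := hU
  obtain ⟨w, hwW, hwH⟩ := hmeet W 1 hWo hWne
  obtain ⟨u0, rfl⟩ := hWu w hwW
  have hallu : ∀ v : Rˣ, (⟨v, 1⟩ : Aff R) ∈ H := by
    intro v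
    have := hunit u0 (v * u0⁻¹) hwH
    rwa [Units.val_mul, mul_assoc, Units.inv_mul, mul_one] at this
  have hall : ∀ r : R, (⟨r, 1⟩ : Aff R) ∈ H := by
    intro r
    obtain ⟨u, v, rfl⟩ := h2 r
    exact hadd _ _ (hallu u) (hallu v)
  rw [eq_top_iff]
  intro g _
  obtain ⟨b, -, hb⟩ := hmeet univ g.a isOpen_univ univ_nonempty
  have := H.mul_mem (hall (g.b - b)) hb
  have h : (⟨g.b - b, 1⟩ : Aff R) * ⟨b, g.a⟩ = g := by
    refine Aff.ext ?_ ?_
    · rw [mul_b]; simp
    · rw [mul_a]; simp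
  rwa [h] at this

end

/-! ### the ring `ℤ₃ × ℝ` -/

/-- the ring -/
abbrev RR : Type := ℤ_[3] × ℝ

theorem padic_two (x : ℤ_[3]) : ∃ u v : ℤ_[3]ˣ, x = u + v := by
  have key : IsUnit (x - 1) ∨ IsUnit (x + 1) := by
    by_contra hcon
    push Not at hcon
    have h1 : x - 1 ∈ nonunits ℤ_[3] := hcon.1
    have h2 : x + 1 ∈ nonunits ℤ_[3] := hcon.2
    have h3 : (x + 1) + -(x - 1) ∈ nonunits ℤ_[3] := by
      apply IsLocalRing.nonunits_add h2
      intro h
      exact h1 (by simpa using h.neg)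
    apply h3
    have : (x + 1) + -(x - 1) = ((2 : ℤ) : ℤ_[3]) := by push_cast; ring
    rw [this]
    rw [PadicInt.isUnit_iff]
    refine le_antisymm (PadicInt.norm_le_one _) (not_lt.1 ?_)
    rw [PadicInt.norm_int_lt_one_iff_dvd]
    decide
  rcases key with h | h
  · obtain ⟨u, hu⟩ := h
    exact ⟨1, u, by rw [hu]; push_cast; ring⟩
  · obtain ⟨u, hu⟩ := h
    exact ⟨-1, u, by rw [hu]; push_cast; ring⟩

theorem real_two (x : ℝ) : ∃ u v : ℝˣ, x = u + v := by
  by_cases h : x = 1
  · exact ⟨Units.mk0 2 (by norm_num), Units.mk0 (-1) (by norm_num), by rw [h]; simp; norm_num⟩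
  · exact ⟨1, Units.mk0 (x - 1) (sub_ne_zero.2 h), by simp⟩

theorem RR_two (r : RR) : ∃ u v : RRˣ, r = u + v := by
  obtain ⟨u, v, h1⟩ := padic_two r.1
  obtain ⟨u', v', h2⟩ := real_two r.2
  exact ⟨MulEquiv.prodUnits.symm (u, u'), MulEquiv.prodUnits.symm (v, v'), Prod.ext h1 h2⟩

theorem RR_units : ∃ W : Set RR, IsOpen W ∧ W.Nonempty ∧ ∀ w ∈ W, IsUnit w := by
  refine ⟨Metric.ball 1 1 ×ˢ Metric.ball 1 1, Metric.isOpen_ball.prod Metric.isOpen_ball,
    ⟨(1, 1), Metric.mem_ball_self one_pos, Metric.mem_ball_self one_pos⟩, ?_⟩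
  rintro ⟨x, y⟩ ⟨hx, hy⟩
  rw [Prod.isUnit_iff]
  refine ⟨?_, ?_⟩
  · rw [Metric.mem_ball, dist_eq_norm] at hx
    by_contra hcon
    have h1 : x ∈ nonunits ℤ_[3] := hcon
    have h2 : x - 1 ∈ nonunits ℤ_[3] := PadicInt.mem_nonunits.2 hx
    have h3 : x + -(x - 1) ∈ nonunits ℤ_[3] := by
      apply IsLocalRing.nonunits_add h1
      intro h
      exact h2 (by simpa using h.neg)
    apply h3
    have : x + -(x - 1) = 1 := by ring
    rw [this]
    exact isUnit_one
  · rw [Metric.mem_ball, Real.dist_eq] at hy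
    rw [isUnit_iff_ne_zero]
    rintro rfl
    simp at hy

/-- the group -/
abbrev GG : Type := Aff RR

instance : LocallyCompactSpace GG := (toH RR).symm.locallyCompactSpace_iff.1 inferInstance

instance : T2Space GG := (toH RR).symm.t2Space

theorem dlm : IsDenselyLocallyMinimal GG := by
  intro H hH
  have : H = ⊤ := no_dense RR_two RR_units H hH
  subst this
  have hcl : IsClosed ((⊤ : Subgroup GG) : Set GG) := isClosed_univ
  have : LocallyCompactSpace (⊤ : Subgroup GG) := hcl.isClosedEmbedding_subtypeVal.locallyCompactSpace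
  exact locMin_of_locallyCompact _

theorem not_td : ¬ TotallyDisconnectedSpace GG := by
  intro h
  have hc : Continuous (fun t : ℝ => (⟨(0, t), 1⟩ : GG)) :=
    (toH RR).symm.continuous.comp ((continuous_const.prodMk continuous_id).prodMk continuous_const)
  have h1 := (isPreconnected_univ.image _ hc.continuousOn).subsingleton
  have h2 := h1 (mem_image_of_mem _ (mem_univ (0 : ℝ))) (mem_image_of_mem _ (mem_univ (1 : ℝ)))
  have h3 : ((0 : ℤ_[3]), (0 : ℝ)) = (0, 1) := congrArg Aff.b h2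
  have h4 : (0 : ℝ) = 1 := congrArg Prod.snd h3
  exact zero_ne_one h4

/-- the copy of the `3`-adic integers -/
def A : Subgroup GG where
  carrier := {g | g.b.2 = 0 ∧ g.a = 1}
  one_mem' := ⟨rfl, rfl⟩
  mul_mem' := by
    rintro x y ⟨h1, h2⟩ ⟨h3, h4⟩
    refine ⟨?_, ?_⟩
    · rw [mul_b, h2, Units.val_one, one_mul, Prod.snd_add, h1, h3, add_zero]
    · rw [mul_a, h2, h4, one_mul]
  inv_mem' := by
    rintro x ⟨h1, h2⟩
    refine ⟨?_, ?_⟩
    · rw [inv_b, h2, inv_one, Units.val_one, one_mul, Prod.snd_neg, h1, neg_zero]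
    · rw [inv_a, h2, inv_one]

theorem A_closed : IsClosed (A : Set GG) := by
  have h1 : IsClosed {g : GG | g.b.2 = 0} :=
    isClosed_singleton.preimage (continuous_snd.comp b_cont)
  have h2 : IsClosed {g : GG | toD g.a ∈ ({toD (1 : RRˣ)} : Set (D RR))} :=
    (isClosed_discrete _).preimage a_cont
  exact h1.inter h2

theorem A_comm : ∀ x ∈ A, ∀ y ∈ A, x * y = y * x := by
  rintro x ⟨h1, h2⟩ y ⟨h3, h4⟩
  refine Aff.ext ?_ ?_
  · rw [mul_b, mul_b, h2, h4, Units.val_one, one_mul, one_mul, add_comm]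
  · rw [mul_a, mul_a, h2, h4]

/-- the isomorphism -/
noncomputable def A_iso : Multiplicative ℤ_[3] ≃ₜ* A where
  toFun x := ⟨⟨(Multiplicative.toAdd x, 0), 1⟩, rfl, rfl⟩
  invFun g := Multiplicative.ofAdd g.1.b.1
  left_inv _ := rfl
  right_inv g := by
    apply Subtype.ext
    exact Aff.ext (Prod.ext rfl g.2.1.symm) g.2.2.symm
  map_mul' x y := by
    apply Subtype.ext
    refine Aff.ext (Prod.ext ?_ ?_) ?_
    · show _ = Multiplicative.toAdd x + 1 * Multiplicative.toAdd y
      rw [one_mul]; rfl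
    · show (0 : ℝ) = 0 + 1 * 0
      ring
    · show (1 : RRˣ) = 1 * 1
      rw [one_mul]
  continuous_toFun := by
    refine Continuous.subtype_mk ?_ _
    have : Continuous (fun x : Multiplicative ℤ_[3] => Multiplicative.toAdd x) := continuous_toAdd
    exact (toH RR).symm.continuous.comp ((this.prodMk continuous_const).prodMk continuous_const)
  continuous_invFun := by
    have h1 : Continuous (fun g : A => g.1.b.1) :=
      (continuous_fst.comp b_cont).comp continuous_subtype_val
    exact continuous_ofAdd.comp h1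

/-- the subgroup is not a manifold -/
theorem A_not_manifold (E : Type) [NormedAddCommGroup E] [NormedSpace ℝ E] [ChartedSpace E A] :
    False := by
  have h1 : LocallyConnectedSpace A := ChartedSpace.locallyConnectedSpace E A
  let φ : ℤ_[3] ≃ₜ A := (Homeomorph.refl _ : ℤ_[3] ≃ₜ Multiplicative ℤ_[3]).trans A_iso.toHomeomorph
  have h2 : LocallyConnectedSpace ℤ_[3] := φ.isOpenEmbedding.locallyConnectedSpace
  have h3 : IsOpen (connectedComponent (0 : ℤ_[3])) := isOpen_connectedComponent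
  have h4 : connectedComponent (0 : ℤ_[3]) = {0} := by
    have : TotallyDisconnectedSpace ℤ_[3] := inferInstance
    exact totallyDisconnectedSpace_iff_connectedComponent_singleton.1 this 0
  rw [h4, Metric.isOpen_singleton_iff] at h3
  obtain ⟨ε, hε, h5⟩ := h3
  obtain ⟨n, hn⟩ := exists_pow_lt_of_lt_one hε (show ((1 : ℝ) / 3) < 1 by norm_num)
  have h6 := h5 ((3 : ℤ_[3]) ^ n) (by
    rw [dist_zero_right, norm_pow]
    have : ‖(3 : ℤ_[3])‖ = 1 / 3 := by
      have := PadicInt.norm_p (p := 3)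
      push_cast at this
      rw [this]; norm_num
    rw [this]; exact hn)
  have h7 : (3 : ℤ_[3]) ≠ 0 := by
    have := (PadicInt.prime_p (p := 3)).ne_zero
    exact_mod_cast this
  exact pow_ne_zero n h7 h6

end Pool.Agent.X194.DLM
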